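import Pool.Agent.N378.SK.Level
import Pool.Agent.N378.SK.L_LOV
import Pool.Agent.N378.SK.L_LONG
import Pool.Agent.N378.SK.L_GP
import Pool.Agent.N378.SK.L_CORE
import Pool.Agent.N378.SK.L_MEAS
import Pool.Agent.N378.SK.L_SHORT
import Pool.Agent.N378.SK.L_COMB
import Pool.Agent.N378.SK.L_MAIN

set_option autoImplicit false

/-!
# A single level in an arrangement of independent random lines with joint densities (MP_a08d0a_co)

`n` independent random lines `y = a l * x + B l`; the law of the pair `(a l, B l)` is an arbitrary
probability measure on the square `[-1, 1]²` with density at most `D` (the laws may all be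
different).  For every `k < n` the expected complexity of the `k`-level is at most
`24 (D n)^(1/3) min(k + 1, n - k)^(2/3)`.

Proof.  Duality with points.  Lovász' lemma: the sum of `|Δ a| + |Δ B|` over the crossings with
exactly `k` lines below is at most `8 (k + 1)`, so at most `8 (k + 1) / t` crossings have sup norm
distance at least `t` in the parameter plane.  For the others fix all lines but the `j`-th: their
expected number is at most `D` times the sum over `i` of the areas of the sets of the vectors `v`,
`|v| < t`, such that exactly `k` of the other points lie to the left of the directed line through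
the `i`-th point with direction `v`; for almost every `v` there is at most one such `i`.  Choose
`t = ((k + 1) / (D n))^(1/3)`.

The definitions `Simple`, `crossings`, `level`, `psi` are those of the starting file
`SmoothedLevel` (arbitrary slopes, random intercepts: bound `16 D M n`).
-/

namespace Pool.Agent.Results.MP_a08d0a_co.JointDensities

open MeasureTheory Pool.Agent.N378.SK
open Pool.Agent.Results.MP_a08d0a_co.SmoothedLevel
open scoped ENNReal

theorem result (n : ℕ) (D : ℝ) (μ : Fin n → Measure (ℝ × ℝ)) (hD : 0 < D)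
    (hp : ∀ i, IsProbabilityMeasure (μ i))
    (hμ : ∀ i, μ i ≤ ENNReal.ofReal D • (volume.restrict (Set.Icc (-1 : ℝ) 1 ×ˢ Set.Icc (-1 : ℝ) 1))) :
    (∀ᵐ x ∂Measure.pi μ, Simple (fun l => (x l).1) (fun l => (x l).2)) ∧
    (∀ k, k < n → ∫⁻ x, ((crossings (fun l => (x l).1) (fun l => (x l).2) k).ncard : ℝ≥0∞)
        ∂Measure.pi μ ≤
      ENNReal.ofReal (12 * (D * n) ^ (1 / 3 : ℝ) *
        (min (k + 1) (n - 1 - k) : ℕ) ^ (2 / 3 : ℝ))) ∧
    (∀ k, k < n → ∫⁻ x, (psi (fun l => (x l).1) (fun l => (x l).2) k : ℝ≥0∞) ∂Measure.pi μ ≤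
      ENNReal.ofReal (24 * (D * n) ^ (1 / 3 : ℝ) *
        (min (k + 1) (n - k) : ℕ) ^ (2 / 3 : ℝ))) := by
  have hC : S_COMB := t_COMB (t_LONG t_LOV) (t_SHORT t_CORE t_GP t_MEAS) t_GP t_MEAS
  have hM : S_MAIN := t_MAIN hC
  refine ⟨?_, fun k hk => cross_bound hM t_GP D μ (by omega) hD hp hμ k,
    fun k hk => psi_bound hM t_GP D μ hD hp hμ k hk⟩
  filter_upwards [t_GP n (ENNReal.ofReal D) μ ENNReal.ofReal_ne_top hp hμ] with x hx
  exact simple_of_GP x hx.1

end Pool.Agent.Results.MP_a08d0a_co.JointDensities
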